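import Pool.Agent.Run7.h709.AC.Chi
import Pool.Agent.Run7.h709.AC.Cs

/-!
# The Singer conjecture for Poincaré duality subgroups of right-angled Coxeter groups, of arbitrary index

Let `W G` be the right-angled Coxeter group of the finite graph `G`, and let `Γ` be the kernel of `W G → (ℤ/2)^V`, a
torsion free subgroup of finite index. We prove the Singer conjecture for all the Poincaré duality subgroups `K` of `Γ`
(of type FL, orientable or not, of finite or infinite index) of dimension `q ≥ 2 b - 2`, if the set of all vertices of
`G` is in the class `AC G b`; if `q ≥ 2 b - 1` then all the `L²`-Betti numbers of `K` vanish. The dimension of `Γ`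
can be much larger than `2 b`, and then `K` can have large codimension.

The class `AC G b` contains the sets whose cliques have at most `b` elements and for which the `ℓ²`-homology of the
Davis complex vanishes in the top degree `b`, and is closed under cones and suspensions (with the same `b`), under
adding a vertex whose link is in the class `b - 1`, and under gluing along full subcomplexes of the class `b - 1`. The
proof shows that `b_k(K) = 0` for all `k ≥ b` and all subgroups `K` of `Γ`, and uses duality.

Two families of examples are part of the theorem: simplicial complexes in the sphere of dimension `2 d`, with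
vertices coloured by `d + 1` colours and without monochromatic triangles, after the subdivision of the monochromatic
edges (`b = d + 1`; `q ≥ 2 d`, so `K` has codimension at most one if the complex is a sphere), and joins of `m` graphs
which are `2`-degenerate (`b = m + 1`, `q ≥ 2 m`; for example joins of polygons, trees, series-parallel graphs, or of
arbitrary graphs with subdivided edges).
-/

set_option autoImplicit false

namespace Pool.Agent.Results.MP_984acc_gt.DualitySubgroups

open Pool.Agent.W907.SG Pool.Agent.W461.SGN Pool.Agent.N496.CV Pool.Agent.R782.Bal Run7.h709.AC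

/-- The subgroup `K` satisfies the Singer conjecture for groups of dimension `q`: the `L²`-Betti numbers outside of the
degree `q / 2` vanish, and all of them vanish if `q > q₀`. -/
def Singer (K : Type) [Group K] (q q₀ : ℕ) : Prop :=
  (∀ k : ℕ, 2 * k ≠ q → HasL2Betti K k 0) ∧ (q₀ < q → ∀ k : ℕ, HasL2Betti K k 0)

theorem singer_pd {V : Type} [Fintype V] [LinearOrder V] (G : SimpleGraph V) {b : ℕ} (hAC : AC G (b + 1) Set.univ)
    (K : Subgroup (W G)) (hK : K ≤ (th G).ker) {q : ℕ} (P : PD K q) (hq : 2 * b ≤ q) : Singer K q (2 * b) := by
  refine ⟨fun k hk => ?_, fun h k => ?_⟩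
  · have h6 := hasL2Betti K k
    rw [pd_mid G hAC K hK P (by omega) k hk] at h6
    exact h6
  · have h6 := hasL2Betti K k
    rw [pd_all G hAC K hK P (by omega) k] at h6
    exact h6

/-- Let `K` be a Poincaré duality group of dimension `q` (of type FL) which is a subgroup, of arbitrary index, of the
kernel of `W G → (ℤ/2)^V`. (1) If the set of all vertices of the finite graph `G` is in the class `AC G (b + 1)` and
`q ≥ 2 b` then the `L²`-Betti numbers of `K` outside of the degree `q / 2` vanish, and all of them vanish if
`q > 2 b`. (2) This holds for `q ≥ 2 d` if `G` is obtained from a simplicial complex `X` embedded in the sphere of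
dimension `2 d`, with vertices coloured by `d + 1` colours and without monochromatic triangles, by subdividing the
monochromatic edges. (3) This holds for `q ≥ 2 m` if `G` is the join of `m` graphs which are `2`-degenerate. -/
theorem result :
    (∀ (b : ℕ) (V : Type) [Fintype V] [LinearOrder V] (G : SimpleGraph V), AC G (b + 1) Set.univ →
      ∀ K : Subgroup (W G), K ≤ (th G).ker → ∀ q : ℕ, Nonempty (PD K q) → 2 * b ≤ q → Singer K q (2 * b)) ∧
    (∀ (d N : ℕ) (X : Finset (Finset (Fin N))) (col : Fin N → Fin (d + 1)),
      (∀ σ ∈ X, ∀ τ : Finset (Fin N), τ ⊆ σ → τ ∈ X) →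
      (∀ σ ∈ X, (∀ v ∈ σ, ∀ w ∈ σ, col v = col w) → σ.card ≤ 2) → EmbX d X col →
      ∀ [Fintype (MF X col)] [LinearOrder (MF X col)], ∀ K : Subgroup (W (cs X col)), K ≤ (th (cs X col)).ker →
        ∀ q : ℕ, Nonempty (PD K q) → 2 * d ≤ q → Singer K q (2 * d)) ∧
    (∀ (m : ℕ) (V : Type) [Fintype V] [LinearOrder V] (G : SimpleGraph V) (p : V → Fin m),
      (∀ u v, p u ≠ p v → G.Adj u v) → (∀ i, Deg2 G p i) → ∀ K : Subgroup (W G), K ≤ (th G).ker →
        ∀ q : ℕ, Nonempty (PD K q) → 2 * m ≤ q → Singer K q (2 * m)) := by
  refine ⟨?_, ?_, ?_⟩
  · rintro b V _ _ G h K hK q ⟨P⟩ hq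
    exact singer_pd G h K hK P hq
  · rintro d N X col hX ht hE _ _ K hK q ⟨P⟩ hq
    exact singer_pd _ (ac_cs hX ht hE) K hK P hq
  · rintro m V _ _ G p hp hd K hK q ⟨P⟩ hq
    exact singer_pd G (ac_joins p hp hd) K hK P hq

end Pool.Agent.Results.MP_984acc_gt.DualitySubgroups
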