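import Pool.Agent.Run7.h31.Raise.Acyclic

/-!
# The Singer conjecture and chain endomorphisms which raise the heights in an ordered set

Let `G` act by order-preserving maps on a totally ordered set `X`, for instance a left-ordered group
on itself. Let `E` be the beginning of a resolution of the trivial module by finitely generated free
modules over the complex group algebra. If the basis elements have heights in `X`, then so have their
translates. A chain endomorphism of `E` which lifts the identity and strictly raises the heights in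
degree `m` forces the `m`-th `L²`-Betti number of `G` to vanish, and in general this number is at
most the number of basis elements which are not raised. This extends the criterion of Bieri and Renz
for the invariants `Σ^m`, where `X` is the real line on which `G` acts by translations, to arbitrary
order-preserving actions. Such endomorphisms exist in the degrees up to `m` if the subcomplexes of the
elements of height at least `x` are exact in the degrees less than `m`. For a left-ordered group this
holds if the monoid of the elements `g ≥ 1` is of type `FP_m`.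

For a Poincaré duality group of dimension `n` the same bounds hold in degree `n - m`, and the Singer
conjecture follows if the degrees less than `n / 2` are raised.

Outline. Let `Z` be the endomorphism. Then `1 - Z` is homotopic to zero, hence its operator on the
square-summable cochains of degree `m` maps the cocycles to the coboundaries, and the dimension of the
reduced cohomology is at most the dimension of its kernel. The level inequality `N309.LO.level_le` for
ordered `G`-sets bounds the latter. The Betti numbers of two resolutions are compared by chain maps,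
and the dual complex is compared with the twist of `E` by the character of its one-dimensional
cokernel. The twist does not change the supports.
-/

set_option autoImplicit false

open scoped Matrix

universe u v

namespace Pool.Agent.Results.MP_984acc_gt.OrderRaising

/-- The matrices of a complex of finitely generated free left modules over the complex group algebra
of `G`: the module in degree `i` consists of the row vectors with `r i` entries, and the boundary
operator from degree `i + 1` to degree `i` is the right multiplication by the matrix `D i`. The dual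
complex consists of the column vectors, with the left multiplication by `D i` from degree `i` to
degree `i + 1`. -/
abbrev Matrices (G : Type u) [Group G] (r : ℕ → ℕ) :=
  ∀ i, Matrix (Fin (r (i + 1))) (Fin (r i)) (MonoidAlgebra ℂ G)

/-- The complex is exact in degree `i + 1`. -/
def IsExactAt {G : Type u} [Group G] {r : ℕ → ℕ} (D : Matrices G r) (i : ℕ) : Prop :=
  ∀ x : Fin (r (i + 1)) → MonoidAlgebra ℂ G, x ᵥ* D i = 0 → ∃ y, y ᵥ* D (i + 1) = x

/-- The dual complex is exact in degree `i + 1`. -/
def IsDualExactAt {G : Type u} [Group G] {r : ℕ → ℕ} (D : Matrices G r) (i : ℕ) : Prop :=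
  ∀ x : Fin (r (i + 1)) → MonoidAlgebra ℂ G, D (i + 1) *ᵥ x = 0 → ∃ y, D i *ᵥ y = x

/-- The sum of the coefficients of an element of the group algebra. -/
noncomputable def aug {G : Type u} [Group G] (α : MonoidAlgebra ℂ G) : ℂ :=
  α.coeff.sum fun _ c => c

/-- The homology of the complex in degree `0` is the trivial module `ℂ`, by means of the functional
which maps `x` to the sum of the `aug (x i) * a i`. -/
def HasAugmentation {G : Type u} [Group G] {r : ℕ → ℕ} (D : Matrices G r)
    (a : Fin (r 0) → ℂ) : Prop :=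
  a ≠ 0 ∧ ∀ x : Fin (r 0) → MonoidAlgebra ℂ G, (∃ y, y ᵥ* D 0 = x) ↔ ∑ i, aug (x i) * a i = 0

/-- The cokernel of `D i` in the dual complex has dimension one over `ℂ`. -/
def HasCoaugmentation {G : Type u} [Group G] {r : ℕ → ℕ} (D : Matrices G r) (i : ℕ) : Prop :=
  ∃ φ : (Fin (r (i + 1)) → MonoidAlgebra ℂ G) →ₗ[ℂ] ℂ, φ ≠ 0 ∧
    ∀ x, (∃ y, D i *ᵥ y = x) ↔ φ x = 0

/-- A finite complex of finitely generated free left modules over the complex group algebra of `G`,
of length `n`, which is a resolution of the trivial module `ℂ` and whose dual complex is exact in the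
degrees `1, …, n - 1` and has a one-dimensional cokernel in degree `n`. -/
structure IsDualityComplex {G : Type u} [Group G] (n : ℕ) {r : ℕ → ℕ} (D : Matrices G r) :
    Prop where
  comp : ∀ i, D (i + 1) * D i = 0
  length : ∀ i, n < i → r i = 0
  exact : ∀ i, IsExactAt D i
  augmentation : ∃ a, HasAugmentation D a
  coexact : ∀ i, i + 1 < n → IsDualExactAt D i
  coaugmentation : ∀ i, i + 1 = n → HasCoaugmentation D i

/-- The value at `g` of the convolution `α * f`. -/
noncomputable def conv {G : Type u} [Group G] (α : MonoidAlgebra ℂ G) (f : G → ℂ) (g : G) : ℂ :=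
  ∑ k ∈ α.coeff.support, α.coeff k * f (k⁻¹ * g)

/-- The value at `g` of the convolution `α* * f` with the adjoint of `α`. -/
noncomputable def coconv {G : Type u} [Group G] (α : MonoidAlgebra ℂ G) (f : G → ℂ) (g : G) : ℂ :=
  ∑ k ∈ α.coeff.support, (starRingEnd ℂ) (α.coeff k) * f (k * g)

/-- The square-summable functions on `G × {1, …, k}`. -/
noncomputable abbrev L2 (G : Type u) (k : ℕ) := lp (fun _ : G × Fin k => ℂ) 2

/-- `F` is mapped to zero by the coboundary operator, the matrix `A` acting by convolution. -/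
def IsCocycle {G : Type u} [Group G] {k l : ℕ} (A : Matrix (Fin l) (Fin k) (MonoidAlgebra ℂ G))
    (F : L2 G k) : Prop :=
  ∀ i g, ∑ j, conv (A i j) (fun x => F (x, j)) g = 0

/-- `F` is mapped to zero by the boundary operator, the adjoint of the matrix `A`. -/
def IsCycle {G : Type u} [Group G] {k l : ℕ} (A : Matrix (Fin l) (Fin k) (MonoidAlgebra ℂ G))
    (F : L2 G l) : Prop :=
  ∀ j g, ∑ i, coconv (A i j) (fun x => F (x, i)) g = 0

/-- The square-summable harmonic cochains in degree `i`: the square-summable functions on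
`G × Fin (r i)` in the kernels of the coboundary operator (the matrix `D i`, acting by convolution)
and, if `i` is positive, of the boundary operator (the adjoint of the matrix `D (i - 1)`). They
represent the reduced `ℓ²`-cohomology. -/
noncomputable def harmonic {G : Type u} [Group G] {r : ℕ → ℕ} (D : Matrices G r) :
    (i : ℕ) → Set (L2 G (r i))
  | 0 => {F | IsCocycle (D 0) F}
  | (i + 1) => {F | IsCocycle (D (i + 1)) F ∧ IsCycle (D i) F}

open Classical in
/-- The `i`-th `L²`-Betti number: the von Neumann dimension of the space of harmonic cochains, that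
is, the sum over the basis of one minus the squared distance of the basis vector (at the identity of
`G`) to this space. -/
noncomputable def betti {G : Type u} [Group G] {r : ℕ → ℕ} (D : Matrices G r) (i : ℕ) : ℝ :=
  ∑ j : Fin (r i), (1 - Metric.infDist
    (lp.single 2 ((1 : G), j) (1 : ℂ) : L2 G (r i)) (harmonic D i) ^ 2)

/-- In the degrees `0, …, m` the complex `E` is the beginning of a resolution of the trivial module:
if `m` is positive, then it is exact in the degrees `1, …, m - 1`, and the cokernel of the boundary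
operator to degree `0` is `ℂ`, by means of the functional given by `a`. -/
structure IsPartialResolution {G : Type u} [Group G] (m : ℕ) {q : ℕ → ℕ} (E : Matrices G q)
    (a : Fin (q 0) → ℂ) : Prop where
  ne : a ≠ 0
  augmentation : 1 ≤ m → HasAugmentation E a
  comp : ∀ i, i + 2 ≤ m → E (i + 1) * E i = 0
  exact : ∀ i, i + 2 ≤ m → IsExactAt E i

/-- The matrices `Z 0, …, Z m` form a chain endomorphism of `E` in the degrees `0, …, m` which
induces the identity of the trivial module. -/
structure LiftsIdentity {G : Type u} [Group G] (m : ℕ) {q : ℕ → ℕ} (E : Matrices G q)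
    (a : Fin (q 0) → ℂ) (Z : ∀ i, Matrix (Fin (q i)) (Fin (q i)) (MonoidAlgebra ℂ G)) :
    Prop where
  augmentation : ∀ x : Fin (q 0) → MonoidAlgebra ℂ G,
    ∑ i, aug ((x ᵥ* Z 0) i) * a i = ∑ i, aug (x i) * a i
  comm : ∀ i, i + 1 ≤ m → E i * Z i = Z (i + 1) * E i

/-- The total order of the `G`-set `X` is invariant. -/
def OrderInvariant (G : Type u) (X : Type v) [Group G] [MulAction G X] [LinearOrder X] : Prop :=
  ∀ (g : G) (a b : X), a ≤ b → g • a ≤ g • b

/-- The `j`-th basis element of the free module of the row vectors with `k` entries has the height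
`w j`, and its translate by `g` the height `g • w j`. All translates of basis elements which occur in
`v` have heights at least `x`. -/
def HeightsAtLeast {G : Type u} [Group G] {X : Type v} [MulAction G X] [LinearOrder X] {k : ℕ}
    (w : Fin k → X) (x : X) (v : Fin k → MonoidAlgebra ℂ G) : Prop :=
  ∀ j, ∀ g ∈ (v j).coeff.support, x ≤ g • w j

/-- All translates of basis elements which occur in `v` have heights more than `x`. -/
def HeightsMoreThan {G : Type u} [Group G] {X : Type v} [MulAction G X] [LinearOrder X] {k : ℕ}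
    (w : Fin k → X) (x : X) (v : Fin k → MonoidAlgebra ℂ G) : Prop :=
  ∀ j, ∀ g ∈ (v j).coeff.support, x < g • w j

/-- There are an order-preserving action of `G` on a totally ordered set `X`, the beginning `E` of a
resolution of the trivial module by finitely generated free modules, a chain endomorphism `Z` of `E`
up to degree `m` which lifts the identity, and heights in `X` of the basis elements of degree `m` such
that `Z` strictly raises the heights of all but at most `c` of them. -/
def IsRaised (G : Type u) [Group G] (m c : ℕ) : Prop :=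
  ∃ (X : Type v) (_ : LinearOrder X) (_ : MulAction G X) (q : ℕ → ℕ) (E : Matrices G q)
    (a : Fin (q 0) → ℂ) (Z : ∀ i, Matrix (Fin (q i)) (Fin (q i)) (MonoidAlgebra ℂ G))
    (w : Fin (q m) → X) (T : Finset (Fin (q m))),
    OrderInvariant G X ∧ IsPartialResolution m E a ∧ LiftsIdentity m E a Z ∧
      T.card ≤ c ∧ ∀ j, j ∉ T → HeightsMoreThan w (w j) (Z m j)

/-- The basis elements of the free modules of the complex `E` of degrees `0, …, m` have heights in the
ordered `G`-set `X`, the boundary operators do not lower the heights, and for each `x` the subcomplex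
of the elements with heights at least `x` is the beginning of a resolution of `ℂ`: the functional
given by `a` does not vanish on its part of degree `0`, and it is exact in the degrees
`0, …, m - 1`. -/
structure IsUpperExact {G : Type u} [Group G] {X : Type v} [MulAction G X] [LinearOrder X] (m : ℕ)
    {q : ℕ → ℕ} (E : Matrices G q) (a : Fin (q 0) → ℂ) (w : ∀ i, Fin (q i) → X) : Prop where
  heights : ∀ i, i + 1 ≤ m → ∀ k, HeightsAtLeast (w i) (w (i + 1) k) (E i k)
  comp_zero : 1 ≤ m → ∀ y : Fin (q 1) → MonoidAlgebra ℂ G, ∑ i, aug ((y ᵥ* E 0) i) * a i = 0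
  comp : ∀ i, i + 2 ≤ m → E (i + 1) * E i = 0
  augmentation : ∀ x : X, ∃ v : Fin (q 0) → MonoidAlgebra ℂ G, HeightsAtLeast (w 0) x v ∧
    ∑ i, aug (v i) * a i ≠ 0
  exact_zero : 1 ≤ m → ∀ (x : X) (v : Fin (q 0) → MonoidAlgebra ℂ G),
    HeightsAtLeast (w 0) x v → ∑ i, aug (v i) * a i = 0 →
    ∃ y, HeightsAtLeast (w 1) x y ∧ y ᵥ* E 0 = v
  exact : ∀ i, i + 2 ≤ m → ∀ (x : X) (v : Fin (q (i + 1)) → MonoidAlgebra ℂ G),
    HeightsAtLeast (w (i + 1)) x v → v ᵥ* E i = 0 →
    ∃ y, HeightsAtLeast (w (i + 2)) x y ∧ y ᵥ* E (i + 1) = v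

/-- All entries of the vector are supported in the monoid `{g | 1 ≤ g}`, that is, the vector has
entries in the monoid algebra. -/
def IsPositive {G : Type u} [Group G] [LinearOrder G] {k : ℕ}
    (v : Fin k → MonoidAlgebra ℂ G) : Prop :=
  ∀ j, ∀ g ∈ (v j).coeff.support, 1 ≤ g

/-- The complex `E` has entries in the algebra of the monoid `{g | 1 ≤ g}`, and over this algebra it is
in the degrees `0, …, m` the beginning of a resolution of the trivial module by finitely generated
free left modules. Thus this monoid is of type `FP_m` over `ℂ`. -/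
structure IsMonoidResolution {G : Type u} [Group G] [LinearOrder G] (m : ℕ) {q : ℕ → ℕ}
    (E : Matrices G q) (a : Fin (q 0) → ℂ) : Prop where
  ne : a ≠ 0
  positive : ∀ i, i + 1 ≤ m → ∀ k, IsPositive (E i k)
  comp_zero : 1 ≤ m → ∀ y : Fin (q 1) → MonoidAlgebra ℂ G, ∑ i, aug ((y ᵥ* E 0) i) * a i = 0
  comp : ∀ i, i + 2 ≤ m → E (i + 1) * E i = 0
  exact_zero : 1 ≤ m → ∀ v : Fin (q 0) → MonoidAlgebra ℂ G, IsPositive v →
    ∑ i, aug (v i) * a i = 0 → ∃ y, IsPositive y ∧ y ᵥ* E 0 = v
  exact : ∀ i, i + 2 ≤ m → ∀ v : Fin (q (i + 1)) → MonoidAlgebra ℂ G, IsPositive v →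
    v ᵥ* E i = 0 → ∃ y, IsPositive y ∧ y ᵥ* E (i + 1) = v

section proofs
open Pool.Agent.W649.ZL Pool.Agent.N309.LO Pool.Agent.N309.PD Run7.h31.Raise

variable {G : Type u} [Group G]

theorem opM_apply {a b : ℕ} (A : Matrix (Fin a) (Fin b) (MonoidAlgebra ℂ G)) (F : EE G (Fin b))
    (k : Fin a) (g : G) : opM A F (g, k) = ∑ j, conv (A k j) (fun x => F (x, j)) g := by
  rw [← cmp_apply, cmp_opM]
  unfold pr
  rw [sum_apply_EE]
  refine Finset.sum_congr rfl fun j _ => ?_
  rw [Lam_apply]
  unfold conv
  refine Finset.sum_congr rfl fun x _ => ?_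
  rw [cmp_apply]

theorem Lam_sig_apply (α : MonoidAlgebra ℂ G) (f : EE G Unit) (g : G) :
    Lam (sig α) f (g, ()) = coconv α (fun x => f (x, ())) g := by
  rw [Lam_apply]
  unfold coconv
  apply Finset.sum_nbij' (fun k => k⁻¹) (fun k => k⁻¹)
  · intro k hk
    rw [Finsupp.mem_support_iff] at hk ⊢
    rw [sig_coeff] at hk
    intro h
    exact hk (by rw [h, map_zero])
  · intro k hk
    rw [Finsupp.mem_support_iff] at hk ⊢
    rw [sig_coeff, inv_inv]
    intro h
    exact hk ((map_eq_zero _).1 h)
  · intro k _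
    exact inv_inv k
  · intro k _
    exact inv_inv k
  · intro k _
    rw [sig_coeff]

theorem opM_adj_apply {a b : ℕ} (A : Matrix (Fin a) (Fin b) (MonoidAlgebra ℂ G))
    (F : EE G (Fin a)) (j : Fin b) (g : G) :
    opM (adjM A) F (g, j) = ∑ k, coconv (A k j) (fun x => F (x, k)) g := by
  rw [← cmp_apply, cmp_opM]
  unfold pr
  rw [sum_apply_EE]
  refine Finset.sum_congr rfl fun k _ => ?_
  change Lam (sig (A k j)) (cmp k F) (g, ()) = _
  rw [Lam_sig_apply]
  congr 1
  funext x
  rw [cmp_apply]

theorem ker_iff {a b : ℕ} (A : Matrix (Fin a) (Fin b) (MonoidAlgebra ℂ G)) (F : EE G (Fin b)) :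
    (∀ k g, ∑ j, conv (A k j) (fun x => F (x, j)) g = 0) ↔ opM A F = 0 := by
  constructor
  · intro h
    ext ⟨g, k⟩
    rw [opM_apply, h]
    rfl
  · intro h k g
    rw [← opM_apply, h]
    rfl

theorem coker_iff {a b : ℕ} (A : Matrix (Fin a) (Fin b) (MonoidAlgebra ℂ G)) (F : EE G (Fin a)) :
    (∀ j g, ∑ k, coconv (A k j) (fun x => F (x, k)) g = 0) ↔ opM (adjM A) F = 0 := by
  constructor
  · intro h
    ext ⟨g, j⟩
    rw [opM_adj_apply, h]
    rfl
  · intro h j g
    rw [← opM_adj_apply, h]
    rfl

theorem harmonic_zero {r : ℕ → ℕ} (D : Matrices G r) :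
    harmonic D 0 = (LinearMap.ker (opM (D 0) : EE G (Fin (r 0)) →ₗ[ℂ] EE G (Fin (r 1))) :
      Set (EE G (Fin (r 0)))) := by
  ext F
  exact ker_iff (D 0) F

theorem harmonic_succ {r : ℕ → ℕ} (D : Matrices G r) (i : ℕ) :
    harmonic D (i + 1) = (harm (opM (D (i + 1))) (opM (D i)) : Set (EE G (Fin (r (i + 1))))) := by
  ext F
  have h1 := ker_iff (D (i + 1)) F
  have h2 := coker_iff (D i) F
  have h3 := ContinuousLinearMap.orthogonal_range (opM (D i))
  rw [opM_adj] at h3
  unfold harm
  rw [h3]
  exact and_congr h1 h2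

theorem betti_eq {r : ℕ → ℕ} (D : Matrices G r) (i : ℕ)
    (P : Submodule ℂ (EE G (Fin (r i)))) (hP : IsClosed (P : Set (EE G (Fin (r i)))))
    (h : harmonic D i = (P : Set (EE G (Fin (r i))))) : betti D i = vd P := by
  classical
  rw [vd_eq_infDist P hP]
  unfold betti
  rw [h]
  refine Finset.sum_congr rfl fun j _ => ?_
  have e : (lp.single 2 ((1 : G), j) (1 : ℂ) : lp (fun _ : G × Fin (r i) => ℂ) 2)
      = (dl ((1 : G), j) : EE G (Fin (r i))) := by
    unfold dl
    congr 1
    exact Subsingleton.elim _ _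
  rw [← e]

theorem betti_bet {r : ℕ → ℕ} (D : Matrices G r) (i : ℕ) : betti D i = bet D i := by
  rcases i with _ | i
  · exact betti_eq D 0 _ (ContinuousLinearMap.isClosed_ker _) (harmonic_zero D)
  · exact betti_eq D (i + 1) _ (harm_closed _ _) (harmonic_succ D i)

theorem adjM_mul {J L M : ℕ} (A : Matrix (Fin L) (Fin J) (MonoidAlgebra ℂ G))
    (B : Matrix (Fin M) (Fin L) (MonoidAlgebra ℂ G)) (hBA : B * A = 0) : adjM A * adjM B = 0 := by
  funext j m
  change ∑ l, sig (A l j) * sig (B m l) = 0
  have h1 : ∀ l, sig (A l j) * sig (B m l) = sig (B m l * A l j) := fun l => (sig_mul _ _).symm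
  rw [Finset.sum_congr rfl fun l _ => h1 l, ← sig_sum]
  have h2 : ∑ l, B m l * A l j = 0 := congrFun (congrFun hBA m) j
  rw [h2, sig_zero]

theorem augF_sum {k : ℕ} (a : Fin k → ℂ) (x : Fin k → MonoidAlgebra ℂ G) :
    augF a x = ∑ i, aug (x i) * a i := by
  rw [augF_apply]
  simp only [augm_eq]
  rfl

theorem augF_char {k : ℕ} (a : Fin k → ℂ) : HasChar (1 : G →* ℂ) (augF a) := by
  intro g x
  rw [augF_apply, augF_apply, Finset.mul_sum]
  refine Finset.sum_congr rfl fun j _ => ?_
  change augm (MonoidAlgebra.single g 1 * x j) * a j = _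
  have e : (augm : MonoidAlgebra ℂ G →ₐ[ℂ] ℂ) (MonoidAlgebra.single g 1) = 1 := by
    unfold augm
    rw [MonoidAlgebra.lift_single, MonoidHom.one_apply, one_smul]
  rw [map_mul, e, MonoidHom.one_apply, one_mul, one_mul]

/-- the matrix `D b`, with another name of its rows -/
noncomputable def Dc {r : ℕ → ℕ} (D : Matrices G r) (a b : ℕ) (e : a = b + 1) :
    Matrix (Fin (r a)) (Fin (r b)) (MonoidAlgebra ℂ G) := by
  subst e
  exact D b

theorem Dc_rfl {r : ℕ → ℕ} (D : Matrices G r) (b : ℕ) : Dc D (b + 1) b rfl = D b := rfl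

/-- the dual complex -/
noncomputable def dualD {r : ℕ → ℕ} (D : Matrices G r) (n : ℕ) : Matrices G (fun i => r (n - i)) :=
  fun i => if h : i < n then adjM (Dc D (n - i) (n - (i + 1)) (by omega)) else 0

theorem Dc_coaug {r : ℕ → ℕ} (D : Matrices G r) (a b : ℕ) (e : a = b + 1)
    (h : HasCoaugmentation D b) : ∃ φ : (Fin (r a) → MonoidAlgebra ℂ G) →ₗ[ℂ] ℂ, φ ≠ 0 ∧
      ∀ x, (∃ y, y ᵥ* adjM (Dc D a b e) = x) ↔ φ x = 0 := by
  subst e
  obtain ⟨φ, h1, h2⟩ := h
  exact ⟨dualF φ, dualF_ne h1, dual_aug (D b) φ h2⟩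

theorem Dc_exact {r : ℕ → ℕ} (D : Matrices G r) (a b c : ℕ) (e : a = b + 1) (e' : b = c + 1)
    (h : IsDualExactAt D c) (x : Fin (r b) → MonoidAlgebra ℂ G)
    (hx : x ᵥ* adjM (Dc D a b e) = 0) : ∃ y, y ᵥ* adjM (Dc D b c e') = x := by
  subst e'
  subst e
  exact dual_exact (D (c + 1)) (D c) h x hx

theorem Dc_comp {r : ℕ → ℕ} (D : Matrices G r) (a b c : ℕ) (e : a = b + 1) (e' : b = c + 1)
    (h : D (c + 1) * D c = 0) : adjM (Dc D b c e') * adjM (Dc D a b e) = 0 := by
  subst e'
  subst e
  exact adjM_mul _ _ h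

theorem Dc_betti {r : ℕ → ℕ} (D : Matrices G r) (a b c : ℕ) (e : a = b + 1) (e' : b = c + 1) :
    vd (harm (opM (adjM (Dc D b c e'))) (opM (adjM (Dc D a b e)))) = betti D b := by
  subst e'
  subst e
  rw [betti_eq D (c + 1) _ (harm_closed _ _) (harmonic_succ D c),
    harm_dual (opM (D (c + 1))) (opM (D c)), opM_adj, opM_adj, Dc_rfl, Dc_rfl]

theorem Dc_betti_zero {r : ℕ → ℕ} (D : Matrices G r) (a b : ℕ) (e : a = b + 1)
    (h : r (a + 1) = 0) :
    vd (LinearMap.ker (opM (adjM (Dc D a b e)) :
      EE G (Fin (r a)) →ₗ[ℂ] EE G (Fin (r b)))) = betti D a := by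
  subst e
  rw [betti_eq D (b + 1) _ (harm_closed _ _) (harmonic_succ D b),
    harm_dual (opM (D (b + 1))) (opM (D b)), opM_adj, opM_adj]
  have h1 : (LinearMap.range (opM (adjM (D (b + 1))) :
      EE G (Fin (r (b + 1 + 1))) →ₗ[ℂ] EE G (Fin (r (b + 1)))))ᗮ = ⊤ := by
    rw [eq_top_iff]
    intro x _
    rw [Submodule.mem_orthogonal]
    rintro _ ⟨y, rfl⟩
    have h2 : y = 0 := by
      ext ⟨g, j⟩
      have := j.2
      omega
    rw [h2, map_zero, inner_zero_left]
  unfold harm
  rw [h1, inf_top_eq, Dc_rfl]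

theorem dual_bet {r : ℕ → ℕ} (D : Matrices G r) (n m : ℕ) (h : r (n + 1) = 0) (hm : m < n) :
    bet (r := fun i => r (n - i)) (dualD D n) m = betti D (n - m) := by
  rcases m with _ | k
  · have e : dualD D n 0 = adjM (Dc D (n - 0) (n - (0 + 1)) (by omega)) := by
      unfold dualD
      rw [dif_pos hm]
    change vd (LinearMap.ker (opM (dualD D n 0) : EE G (Fin (r (n - 0))) →ₗ[ℂ]
      EE G (Fin (r (n - (0 + 1)))))) = _
    rw [e]
    exact Dc_betti_zero D (n - 0) (n - (0 + 1)) _ h
  · have e1 : dualD D n (k + 1) = adjM (Dc D (n - (k + 1)) (n - (k + 1 + 1)) (by omega)) := by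
      unfold dualD
      rw [dif_pos hm]
    have e2 : dualD D n k = adjM (Dc D (n - k) (n - (k + 1)) (by omega)) := by
      unfold dualD
      rw [dif_pos (by omega)]
    change vd (harm (opM (dualD D n (k + 1))) (opM (dualD D n k))) = _
    rw [e1, e2]
    exact Dc_betti D (n - k) (n - (k + 1)) (n - (k + 1 + 1)) _ _

/-- the bound for all resolutions of one-dimensional modules -/
theorem bound_of {m c : ℕ} (h : IsRaised.{u, v} G m c) {r : ℕ → ℕ} (D : Matrices G r)
    (φ : (Fin (r 0) → MonoidAlgebra ℂ G) →ₗ[ℂ] ℂ) (hφ0 : φ ≠ 0)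
    (hφ : ∀ x, (∃ y, y ᵥ* D 0 = x) ↔ φ x = 0)
    (hc : ∀ i, i + 2 ≤ m + 1 → D (i + 1) * D i = 0)
    (he : ∀ i, i + 2 ≤ m + 1 → IsExactAt D i) : bet D m ≤ c := by
  obtain ⟨X, _, _, q, E, a, Z, w, T, hX, hE, hZ, hT, hr⟩ := h
  obtain ⟨χ, hχ⟩ := (aug_of hφ0 (D 0) hφ).exists_char
  refine (core_twist hX D E χ φ (augF a) hχ (augF_char a) hφ0 (augF_ne a hE.ne) m
    ⟨fun _ y => (hφ _).1 ⟨y, rfl⟩, hc⟩ ⟨fun _ x hx => (hφ x).2 hx, he⟩
    ⟨fun h1 y => ?_, hE.comp⟩ ⟨fun h1 x hx => ?_, hE.exact⟩ Z ⟨fun x => ?_, hZ.comm⟩ w T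
    hr).trans (by exact_mod_cast hT)
  · rw [augF_sum]
    exact ((hE.augmentation h1).2 _).1 ⟨y, rfl⟩
  · rw [augF_sum] at hx
    exact ((hE.augmentation h1).2 _).2 hx
  · rw [augF_sum, augF_sum]
    exact hZ.augmentation x

theorem raised_of_upper {X : Type v} [LinearOrder X] [MulAction G X] [Nonempty X] [NoMaxOrder X]
    (hX : OrderInvariant G X) (m : ℕ) {q : ℕ → ℕ} (E : Matrices G q) (a : Fin (q 0) → ℂ)
    (w : ∀ i, Fin (q i) → X) (h : IsUpperExact m E a w) (i : ℕ) (hi : i ≤ m) :
    IsRaised.{u, v} G i 0 := by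
  have ha : a ≠ 0 := by
    rintro rfl
    obtain ⟨v, _, hv⟩ := h.augmentation (Classical.arbitrary X)
    apply hv
    simp
  have hc : CompUpTo i E (augF a) := by
    refine ⟨fun h1 y => ?_, fun j hj => h.comp j (by omega)⟩
    rw [augF_sum]
    exact h.comp_zero (by omega) y
  have hU : Upper i E (augF a) w := by
    refine ⟨fun j hj => h.heights j (by omega), fun x => ?_, fun h1 x v hv hv0 => ?_,
      fun j hj => h.exact j (by omega)⟩
    · obtain ⟨v, hv, hv0⟩ := h.augmentation x
      refine ⟨v, hv, ?_⟩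
      rw [augF_sum]
      exact hv0
    · rw [augF_sum] at hv0
      exact h.exact_zero (by omega) x v hv hv0
  obtain ⟨Z, hZ, hr⟩ := exists_raising hX E (augF a) (augF_char a) w i hc hU
  have hx := hU.exact
  refine ⟨X, _, _, q, E, a, Z, w i, ∅, hX, ⟨ha, fun h1 => ⟨ha, fun x => ⟨?_, fun hx0 => ?_⟩⟩,
    hc.succ, hx.succ⟩, ⟨fun x => ?_, hZ.comm⟩, le_of_eq Finset.card_empty,
    fun j _ => hr i le_rfl j⟩
  · rintro ⟨y, rfl⟩
    exact h.comp_zero (by omega) y
  · apply hx.zero h1
    rw [augF_sum]
    exact hx0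
  · have := hZ.zero x
    rwa [augF_sum, augF_sum] at this

theorem gsm_support (x : G) {k : ℕ} (v : Fin k → MonoidAlgebra ℂ G) (j : Fin k) (g : G) :
    g ∈ (gsm x v j).coeff.support ↔ x⁻¹ * g ∈ (v j).coeff.support := by
  rw [Finsupp.mem_support_iff, Finsupp.mem_support_iff]
  change (MonoidAlgebra.single x 1 * v j).coeff g ≠ 0 ↔ _
  rw [MonoidAlgebra.coeff_single_mul_apply, one_mul]

theorem upper_of_monoid [LinearOrder G] (hG : ∀ g a b : G, a ≤ b → g * a ≤ g * b) (m : ℕ)
    {q : ℕ → ℕ} (E : Matrices G q) (a : Fin (q 0) → ℂ) (h : IsMonoidResolution m E a) :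
    IsUpperExact m E a (fun _ _ => (1 : G)) := by
  have h1 : ∀ {k : ℕ} (x : G) (v : Fin k → MonoidAlgebra ℂ G),
      HeightsAtLeast (fun _ => (1 : G)) x v ↔ IsPositive (gsm x⁻¹ v) := by
    intro k x v
    constructor
    · intro hv j g hg
      rw [gsm_support, inv_inv] at hg
      have h2 : x ≤ x * g * 1 := hv j (x * g) hg
      rw [mul_one] at h2
      have h3 := hG x⁻¹ _ _ h2
      rwa [inv_mul_cancel, inv_mul_cancel_left] at h3
    · intro hv j g hg
      have h2 : 1 ≤ x⁻¹ * g := by
        apply hv j (x⁻¹ * g)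
        rw [gsm_support, inv_inv, mul_inv_cancel_left]
        exact hg
      have h3 := hG x _ _ h2
      rw [mul_one, mul_inv_cancel_left] at h3
      change x ≤ g * 1
      rwa [mul_one]
  have h2 : ∀ {k : ℕ} (x : G) (v : Fin k → MonoidAlgebra ℂ G), gsm x (gsm x⁻¹ v) = v := by
    intro k x v
    rw [← gsm_mul, mul_inv_cancel, gsm_one]
  have h3 : ∀ {k : ℕ} (x : G) (v : Fin k → MonoidAlgebra ℂ G), gsm x⁻¹ (gsm x v) = v := by
    intro k x v
    rw [← gsm_mul, inv_mul_cancel, gsm_one]
  refine ⟨?_, h.comp_zero, h.comp, ?_, ?_, ?_⟩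
  · intro i hi k j g hg
    change 1 ≤ g * 1
    rw [mul_one]
    exact h.positive i hi k j g hg
  · intro x
    obtain ⟨j, hj⟩ : ∃ j, a j ≠ 0 := by
      by_contra hcon
      push Not at hcon
      exact h.ne (funext hcon)
    refine ⟨gsm x (Pi.single j 1), ?_, ?_⟩
    · rw [h1, h3]
      intro l g hg
      by_cases hl : l = j
      · subst hl
        rw [Pi.single_eq_same, MonoidAlgebra.one_def, MonoidAlgebra.coeff_single] at hg
        exact (Finset.mem_singleton.1 (Finsupp.support_single_subset hg)).symm.le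
      · rw [Pi.single_eq_of_ne hl] at hg
        exact absurd hg (by simp)
    · rw [← augF_sum, augF_char, MonoidHom.one_apply, one_mul, augF_apply,
        Finset.sum_eq_single j]
      · rw [Pi.single_eq_same, map_one, one_mul]
        exact hj
      · intro i _ hi
        rw [Pi.single_eq_of_ne hi, map_zero, zero_mul]
      · intro h'
        exact absurd (Finset.mem_univ j) h'
  · intro hm x v hv hv0
    rw [h1] at hv
    rw [← augF_sum] at hv0
    obtain ⟨y, hy1, hy2⟩ := h.exact_zero hm _ hv (by
      rw [← augF_sum, augF_char, hv0, mul_zero])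
    refine ⟨gsm x y, ?_, ?_⟩
    · rw [h1, h3]
      exact hy1
    · rw [← gsm_vecMul, hy2, h2]
  · intro i hi x v hv hv0
    rw [h1] at hv
    obtain ⟨y, hy1, hy2⟩ := h.exact i hi _ hv (by
      rw [← gsm_vecMul, hv0]
      funext j
      exact mul_zero _)
    refine ⟨gsm x y, ?_, ?_⟩
    · rw [h1, h3]
      exact hy1
    · rw [← gsm_vecMul, hy2, h2]

theorem no_max [LinearOrder G] (hG : ∀ g a b : G, a ≤ b → g * a ≤ g * b) [Nontrivial G] :
    NoMaxOrder G := by
  constructor
  intro g
  obtain ⟨h, hh⟩ := exists_ne (1 : G)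
  have key : ∃ k : G, 1 < k := by
    rcases lt_or_gt_of_ne hh with h1 | h1
    · refine ⟨h⁻¹, ?_⟩
      refine lt_of_le_of_ne ?_ ?_
      · have h2 := hG h⁻¹ _ _ h1.le
        rwa [inv_mul_cancel, mul_one] at h2
      · intro h2
        exact hh (inv_eq_one.1 h2.symm)
    · exact ⟨h, h1⟩
  obtain ⟨k, hk⟩ := key
  refine ⟨g * k, lt_of_le_of_ne ?_ ?_⟩
  · have h2 := hG g _ _ hk.le
    rwa [mul_one] at h2
  · intro h2
    apply hk.ne
    apply mul_left_cancel (a := g)
    rw [mul_one]
    exact h2

theorem main {n : ℕ} {r : ℕ → ℕ} (D : Matrices G r) (hD : IsDualityComplex n D) (m c : ℕ)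
    (h : IsRaised.{u, v} G m c) : betti D m ≤ c ∧ (m < n → betti D (n - m) ≤ c) := by
  constructor
  · obtain ⟨a, ha0, ha⟩ := hD.augmentation
    rw [betti_bet]
    apply bound_of h D (augF a) (augF_ne a ha0)
    · intro x
      rw [ha, augF_sum]
    · intro i _
      exact hD.comp i
    · intro i _
      exact hD.exact i
  · intro hm
    rw [← dual_bet D n m (hD.length _ (by omega)) hm]
    obtain ⟨φ, hφ0, hφ⟩ := Dc_coaug D (n - 0) (n - (0 + 1)) (by omega)
      (hD.coaugmentation _ (by omega))
    apply bound_of h (r := fun i => r (n - i)) (dualD D n) φ hφ0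
    · have e : dualD D n 0 = adjM (Dc D (n - 0) (n - (0 + 1)) (by omega)) := by
        unfold dualD
        rw [dif_pos (by omega)]
      rw [e]
      exact hφ
    · intro i hi
      have e1 : dualD D n (i + 1) = adjM (Dc D (n - (i + 1)) (n - (i + 1 + 1)) (by omega)) := by
        unfold dualD
        rw [dif_pos (by omega)]
      have e2 : dualD D n i = adjM (Dc D (n - i) (n - (i + 1)) (by omega)) := by
        unfold dualD
        rw [dif_pos (by omega)]
      rw [e1, e2]
      exact Dc_comp D (n - i) (n - (i + 1)) (n - (i + 1 + 1)) _ _ (hD.comp _)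
    · intro i hi
      have e1 : dualD D n (i + 1) = adjM (Dc D (n - (i + 1)) (n - (i + 1 + 1)) (by omega)) := by
        unfold dualD
        rw [dif_pos (by omega)]
      have e2 : dualD D n i = adjM (Dc D (n - i) (n - (i + 1)) (by omega)) := by
        unfold dualD
        rw [dif_pos (by omega)]
      unfold IsExactAt
      rw [e1, e2]
      exact Dc_exact D (n - i) (n - (i + 1)) (n - (i + 1 + 1)) _ _ (hD.coexact _ (by omega))

theorem betti_nonneg {r : ℕ → ℕ} (D : Matrices G r) (i : ℕ) : 0 ≤ betti D i := by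
  rw [betti_bet]
  rcases i with _ | i
  · exact vd_nonneg _
  · exact vd_nonneg _

theorem singer {n : ℕ} {r : ℕ → ℕ} (D : Matrices G r) (hD : IsDualityComplex n D)
    (h : ∀ m, 2 * m < n → IsRaised.{u, v} G m 0) (i : ℕ) (hi : 2 * i ≠ n) : betti D i = 0 := by
  apply le_antisymm _ (betti_nonneg D i)
  rcases lt_or_gt_of_ne hi with h1 | h1
  · have := (main D hD i 0 (h i h1)).1
    rwa [Nat.cast_zero] at this
  · rcases Nat.lt_or_ge n i with h2 | h2
    · unfold betti
      apply le_of_eq
      apply Finset.sum_eq_zero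
      intro j _
      have h3 := j.2
      have h4 := hD.length i h2
      omega
    · have h3 := (main D hD (n - i) 0 (h _ (by omega))).2 (by omega)
      rw [Nat.cast_zero, Nat.sub_sub_self h2] at h3
      exact h3

theorem both {n : ℕ} {r : ℕ → ℕ} (D : Matrices G r) (hD : IsDualityComplex n D) (m : ℕ)
    (h : ∀ i, i ≤ m → IsRaised.{u, v} G i 0) :
    (∀ i, i ≤ m → betti D i = 0 ∧ betti D (n - i) = 0) ∧
      (n ≤ 2 * m + 2 → ∀ i, 2 * i ≠ n → betti D i = 0) := by
  have h0 : ∀ i, i ≤ m → betti D i = 0 := by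
    intro i hi
    apply le_antisymm _ (betti_nonneg D i)
    have := (main D hD i 0 (h i hi)).1
    rwa [Nat.cast_zero] at this
  refine ⟨fun i hi => ⟨h0 i hi, ?_⟩, fun hn => singer D hD fun i hi => h i (by omega)⟩
  rcases Nat.lt_or_ge i n with h1 | h1
  · apply le_antisymm _ (betti_nonneg D _)
    have := (main D hD i 0 (h i hi)).2 h1
    rwa [Nat.cast_zero] at this
  · rw [Nat.sub_eq_zero_of_le h1]
    exact h0 0 (Nat.zero_le _)

end proofs

/-- **The Singer conjecture and raising endomorphisms.** Let `D` be the complex of a Poincaré duality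
group structure of dimension `n` on `G`.

1. If `G` is raised in degree `m` with at most `c` exceptions, then the `L²`-Betti numbers in the
degrees `m` and `n - m` (for `m < n`) are at most `c`.
2. If `G` is raised without exceptions in all degrees less than `n / 2` (the ordered sets and the
resolutions may depend on the degree), then all `L²`-Betti numbers outside degree `n / 2` vanish.
3. If the upper subcomplexes for an order-preserving action on a totally ordered set without greatest
element are exact in the degrees less than `m`, then the `L²`-Betti numbers in the degrees `i` and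
`n - i` vanish for `i ≤ m`, and all outside degree `n / 2` vanish if `n ≤ 2 m + 2`.
4. The same holds if `G` is nontrivial and left-ordered and the monoid `{g | 1 ≤ g}` is of type
`FP_m` over `ℂ`. -/
theorem result (G : Type u) [Group G] (n : ℕ) (r : ℕ → ℕ) (D : Matrices G r)
    (hD : IsDualityComplex n D) :
    (∀ m c, IsRaised.{u, v} G m c → betti D m ≤ c ∧ (m < n → betti D (n - m) ≤ c)) ∧
    ((∀ m, 2 * m < n → IsRaised.{u, v} G m 0) → ∀ i, 2 * i ≠ n → betti D i = 0) ∧
    (∀ (X : Type v) [LinearOrder X] [MulAction G X] [Nonempty X] [NoMaxOrder X],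
      OrderInvariant G X → ∀ (m : ℕ) (q : ℕ → ℕ) (E : Matrices G q) (a : Fin (q 0) → ℂ)
      (w : ∀ i, Fin (q i) → X), IsUpperExact m E a w →
      (∀ i, i ≤ m → betti D i = 0 ∧ betti D (n - i) = 0) ∧
      (n ≤ 2 * m + 2 → ∀ i, 2 * i ≠ n → betti D i = 0)) ∧
    (∀ [LinearOrder G] [Nontrivial G], (∀ g a b : G, a ≤ b → g * a ≤ g * b) →
      ∀ (m : ℕ) (q : ℕ → ℕ) (E : Matrices G q) (a : Fin (q 0) → ℂ), IsMonoidResolution m E a →
      (∀ i, i ≤ m → betti D i = 0 ∧ betti D (n - i) = 0) ∧
      (n ≤ 2 * m + 2 → ∀ i, 2 * i ≠ n → betti D i = 0)) := by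
  refine ⟨fun m c h => main D hD m c h, fun h => singer D hD h, ?_, ?_⟩
  · intro X _ _ _ _ hX m q E a w h
    exact both D hD m fun i hi => raised_of_upper hX m E a w h i hi
  · intro _ _ hG m q E a h
    have := no_max hG
    exact both D hD m fun i hi => raised_of_upper (X := G) (fun g a b hab => hG g a b hab) m E a _
      (upper_of_monoid hG m E a h) i hi

end Pool.Agent.Results.MP_984acc_gt.OrderRaising
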