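import Pool.Agent.Run7.h604.HK.Laws

/-!
# The Singer conjecture for Poincaré duality groups and the variance of the degree

Let a class of Poincaré duality groups be given which is closed under products and contains the
surface groups, each group `Γ` of dimension `n` acting properly and cocompactly on an acyclic complex
of dimension `n` (`Cplx`). The `L²`-Betti numbers of `Γ`, divided by their sum `B`, are a probability
distribution on the degrees `0, …, n`, with mean value `n / 2`. The Singer conjecture says that its
variance is zero. We show that it is equivalent to the statement that the variance is `o (n)` as `n`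
tends to infinity, and that this is needed only for infinitely many even `n` and only for the groups
with `B` larger than any given function of `n`. (The variance is at most `n ^ 2 / 4`.)

Outline. By the inequality of Chebyshev the share of the degrees at distance at most
`√(2 ε m)` from the middle `m` is at least one half if the variance is at most `ε m`. By the power law
for the share of the middle degrees (`Pool.Agent.Run7.h604.HK.Laws`, based on the Künneth formula for
reduced `L²`-homology, which is proved for these complexes) this implies the Singer conjecture.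
-/

set_option autoImplicit false

namespace Pool.Agent.Results.MP_984acc_gt.VarianceLaw

open Pool.Agent.Run7.h604.HK

theorem result (𝒞 : Cplx → Prop) (hp : ∀ A B, 𝒞 A → 𝒞 B → 𝒞 (A.prod B))
    (hS : ∀ t : ℝ, ∃ S, 𝒞 S ∧ S.dim = 2 ∧ t ≤ S.betti 1 ∧ S.betti 0 = 0 ∧ S.betti 2 = 0) :
    (∀ A, 𝒞 A → ∀ k, 2 * k ≠ A.dim → A.betti k = 0) ↔
      ∀ ε : ℝ, 0 < ε → ∀ N : ℕ, ∃ m ≥ N, ∃ β : ℝ, ∀ A, 𝒞 A → A.dim = 2 * m → β ≤ A.total →
        ∑ k ∈ Finset.range (A.dim + 1), ((k : ℝ) - m) ^ 2 * A.betti k ≤ ε * m * A.total := by
  constructor
  · intro h ε hε N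
    refine ⟨N, le_rfl, 0, fun A hA hd _ => ?_⟩
    rw [Finset.sum_eq_zero]
    · exact mul_nonneg (by positivity) A.total_nonneg
    · intro k _
      by_cases hk : k = N
      · rw [hk, sub_self]
        ring
      · rw [h A hA k (by omega), mul_zero]
  · intro H
    refine (Cplx.middle_share_iff 𝒞 hp hS).2 fun K' => ?_
    -- a positive bound
    obtain ⟨K, hK1, hKK⟩ : ∃ K : ℝ, 1 ≤ K ∧ K' ≤ K := ⟨max 1 K', le_max_left _ _, le_max_right _ _⟩
    have hK0 : 0 < K := by linarith
    set ε : ℝ := 1 / (32 * K ^ 2) with hε
    have hε0 : 0 < ε := by positivity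
    obtain ⟨N, hN⟩ := exists_nat_ge (16 * K ^ 2)
    obtain ⟨m, hm, β, hβ⟩ := H ε hε0 N
    have hmN : 16 * K ^ 2 ≤ (m : ℝ) := hN.trans (by exact_mod_cast hm)
    have hm0 : (0 : ℝ) < m := lt_of_lt_of_le (by positivity) hmN
    set f : ℕ := ⌊√(2 * ε * m)⌋₊ with hf
    have hf1 : (f : ℝ) ≤ √(2 * ε * m) := Nat.floor_le (Real.sqrt_nonneg _)
    have hf2 : √(2 * ε * m) < f + 1 := Nat.lt_floor_add_one _
    have hsq : √(2 * ε * m) = √m / (4 * K) := by
      have e : 2 * ε * m = m / (4 * K) ^ 2 := by
        rw [hε]
        field_simp
        ring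
      rw [e, Real.sqrt_div hm0.le, Real.sqrt_sq (by positivity)]
    have hsm : 4 * K ≤ √m := by
      apply Real.le_sqrt_of_sq_le
      nlinarith
    refine ⟨m, f, 1 / 2, β, ?_, fun A hA hd hB => ?_⟩
    · have hs0 : 0 ≤ √(m : ℝ) := Real.sqrt_nonneg _
      have h1 : (f : ℝ) + 1 ≤ √m / (4 * K) + 1 := by rw [← hsq]; linarith
      have h0 : (0 : ℝ) ≤ f + 1 := by positivity
      calc K' * (f + 1) ≤ K * (f + 1) := mul_le_mul_of_nonneg_right hKK h0
        _ ≤ K * (√m / (4 * K) + 1) := mul_le_mul_of_nonneg_left h1 hK0.le
        _ = √m / 4 + K := by field_simp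
        _ ≤ √m / 4 + √m / 4 := by linarith
        _ = 1 / 2 * √m := by ring
    · have h1 := hβ A hA hd hB
      have hT := A.total_nonneg
      have h2 : 2 * ε * m ≤ ((f : ℝ) + 1) ^ 2 := by
        have h3 := pow_le_pow_left₀ (Real.sqrt_nonneg _) hf2.le 2
        rwa [Real.sq_sqrt (by positivity)] at h3
      have hff : (0 : ℝ) < ((f : ℝ) + 1) ^ 2 := by positivity
      have h4 : A.total ≤ ∑ k ∈ Finset.Icc (m - f) (m + f), A.betti k +
          ∑ k ∈ Finset.range (A.dim + 1), ((k : ℝ) - m) ^ 2 / ((f : ℝ) + 1) ^ 2 * A.betti k := by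
        calc A.total = ∑ k ∈ Finset.range (A.dim + 1), A.betti k := rfl
          _ ≤ ∑ k ∈ Finset.range (A.dim + 1),
                ((if k ∈ Finset.Icc (m - f) (m + f) then A.betti k else 0) +
                  ((k : ℝ) - m) ^ 2 / ((f : ℝ) + 1) ^ 2 * A.betti k) := by
              refine Finset.sum_le_sum fun k _ => ?_
              have hb := A.betti_nonneg k
              by_cases hk : k ∈ Finset.Icc (m - f) (m + f)
              · rw [if_pos hk]
                have : 0 ≤ ((k : ℝ) - m) ^ 2 / ((f : ℝ) + 1) ^ 2 * A.betti k := by positivity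
                linarith
              · rw [if_neg hk, zero_add]
                have hk' : (f : ℝ) + 1 ≤ |(k : ℝ) - m| := by
                  rw [Finset.mem_Icc, not_and_or, not_le, not_le] at hk
                  rcases hk with hk | hk
                  · have : k + f + 1 ≤ m := by omega
                    have h5 : (k : ℝ) + f + 1 ≤ m := by exact_mod_cast this
                    rw [abs_sub_comm]
                    refine le_trans ?_ (le_abs_self _)
                    linarith
                  · have : m + f + 1 ≤ k := by omega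
                    have h5 : (m : ℝ) + f + 1 ≤ k := by exact_mod_cast this
                    refine le_trans ?_ (le_abs_self _)
                    linarith
                have h6 : ((f : ℝ) + 1) ^ 2 ≤ ((k : ℝ) - m) ^ 2 := by
                  rw [← sq_abs ((k : ℝ) - m)]
                  exact pow_le_pow_left₀ (by positivity) hk' 2
                have h7 : 1 ≤ ((k : ℝ) - m) ^ 2 / ((f : ℝ) + 1) ^ 2 := (one_le_div hff).2 h6
                nlinarith
          _ = (∑ k ∈ (Finset.range (A.dim + 1)) with k ∈ Finset.Icc (m - f) (m + f), A.betti k) +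
                ∑ k ∈ Finset.range (A.dim + 1), ((k : ℝ) - m) ^ 2 / ((f : ℝ) + 1) ^ 2 * A.betti k := by
              rw [Finset.sum_add_distrib, Finset.sum_filter]
          _ ≤ _ := by
              refine add_le_add ?_ le_rfl
              refine Finset.sum_le_sum_of_subset_of_nonneg ?_ fun k _ _ => A.betti_nonneg k
              intro k hk
              exact (Finset.mem_filter.1 hk).2
      have h5 : ∑ k ∈ Finset.range (A.dim + 1), ((k : ℝ) - m) ^ 2 / ((f : ℝ) + 1) ^ 2 * A.betti k ≤
          1 / 2 * A.total := by
        have e : ∑ k ∈ Finset.range (A.dim + 1), ((k : ℝ) - m) ^ 2 / ((f : ℝ) + 1) ^ 2 * A.betti k =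
            (∑ k ∈ Finset.range (A.dim + 1), ((k : ℝ) - m) ^ 2 * A.betti k) /
              ((f : ℝ) + 1) ^ 2 := by
          rw [Finset.sum_div]
          refine Finset.sum_congr rfl fun k _ => ?_
          ring
        rw [e, div_le_iff₀ hff]
        refine h1.trans ?_
        have h6 := mul_le_mul_of_nonneg_right h2 hT
        linarith
      linarith

end Pool.Agent.Results.MP_984acc_gt.VarianceLaw
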