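import Pool.Agent.Run7.h606.DB.Red

/-!
# Singer's conjecture for right-angled Coxeter groups from sublinear bounds for centrally symmetric nerves

For a vertex `v` of a finite graph `G` let `DG G v` be the graph of two copies of `G - v` which are glued along the
link of `v`. Its right-angled Coxeter group is a subgroup of index two of `W G`. If the flag complex of `G` is a homology
sphere then so is the one of `DG G v`, so that the torsion-free subgroups of finite index of all the groups `W G` in
question are Poincare duality groups. A graph is centrally symmetric (`CSym`) if it has an involutive automorphism such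
that no vertex is equal or adjacent to its image; then the involution of the flag complex has no invariant simplex.

Let `P` be a class of graphs which is closed under doubling and `i ≥ 1`. We show that the `i`-th `ℓ²`-Betti number
vanishes for all the members of `P` if and only if it is sublinear in the number of vertices for the centrally symmetric
members, in the following weak sense: for each `ε > 0` it is at most `ε f_0(G)` if `G` is a centrally symmetric member
of `P` with sufficiently many vertices. Moreover a nonzero `i`-th `ℓ²`-Betti number of a member `G` of `P` gives
centrally symmetric members `H` with arbitrarily many vertices whose groups are subgroups of finite index of `W G`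
and whose `i`-th `ℓ²`-Betti number is at least `c f_0(H)`, where `c > 0` depends only on `G`.

Proof. Doubling multiplies the `ℓ²`-Betti numbers by two and the number of vertices by at most two. If each vertex of
`G` is adjacent to all the others with at most one exception then `W G` is amenable; otherwise one gets arbitrarily many
vertices by doubling. Finally one doubles once at each vertex of a maximal simplex `T`. The composition of the
reflections is an involution of the resulting graph. An invariant simplex would give a vertex outside of `T` which is
adjacent to all the elements of `T`.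
-/

set_option autoImplicit false

namespace Pool.Agent.Results.MP_984acc_gt.VirtualNerves

open Pool.Agent.W907.SG Pool.Agent.Y132.SI Pool.Agent.R580.CD Pool.Agent.Run7.h606.DB

/-- Let `P` be a class of finite graphs which is closed under doubling and let `i ≥ 1`. (1) The `ℓ²`-homology of the
Davis complex of `W G` vanishes in degree `i` for all `G` in `P` if and only if for each `ε > 0` the `i`-th
`ℓ²`-Betti number is at most `ε` times the number of vertices for all centrally symmetric members of `P` with
sufficiently many vertices. (2) If it does not vanish for a member `G` of `P` then there is `c > 0` such that for each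
`M` there is a centrally symmetric member `H` of `P` with at least `M` vertices such that `W H` is isomorphic to a
subgroup of `W G` whose index is a power of `2` and the `i`-th real Betti number of each subgroup `K` of finite index of
`W H` which contains no conjugate of an element of a certain finite set of nontrivial elements is larger than
`c f_0(H) [W H : K]`. (3) The class of the graphs whose flag complex is a homology sphere over a field, of a given
dimension, is closed under doubling. -/
theorem result :
    (∀ P : ∀ (V : Type) [Fintype V] [LinearOrder V], SimpleGraph V → Prop,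
      (∀ (V : Type) [Fintype V] [LinearOrder V] (G : SimpleGraph V) (v : V), P V G → P (DV G v) (DG G v)) →
      ∀ i : ℕ, 1 ≤ i →
      ((∀ (V : Type) [Fintype V] [LinearOrder V] (G : SimpleGraph V), P V G → L2Van G i) ↔
        ∀ ε : ℝ, 0 < ε → ∃ M : ℕ, ∀ (V : Type) [Fintype V] [LinearOrder V] (G : SimpleGraph V), P V G → CSym G →
          M ≤ Fintype.card V → Bd G i (ε * Fintype.card V)) ∧
      ∀ (V : Type) [Fintype V] [LinearOrder V] (G : SimpleGraph V), P V G → ¬ L2Van G i → ∃ c : ℝ, 0 < c ∧
        ∀ M : ℕ, ∃ (k : ℕ) (U : Type) (_ : Fintype U) (_ : LinearOrder U) (H : SimpleGraph U), P U H ∧ CSym H ∧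
          M ≤ Fintype.card U ∧ (∃ f : W H →* W G, Function.Injective f ∧ f.range.index = 2 ^ k) ∧
          ∃ E : Finset (W H), (1 : W H) ∉ E ∧ ∀ K : Subgroup (W H), K.FiniteIndex →
            (∀ g ∈ E, ∀ x : W H, x * g * x⁻¹ ∉ K) →
            c * Fintype.card U * K.index < Module.finrank ℝ (HInv H K i)) ∧
    ∀ (F : Type) [Field F] (n : ℕ) (V : Type) [Fintype V] [LinearOrder V] (G : SimpleGraph V) (v : V),
      Sph F n G → Sph F n (DG G v) := by
  refine ⟨fun P hP i hi => ?_, fun F _ n V _ _ G v hS => sph_double hS v⟩
  have hP1 : Clo1 (fun (_ : ℕ) (V : Type) [Fintype V] [LinearOrder V] (G : SimpleGraph V) => P V G) :=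
    fun _ V _ _ G v h => hP V G v h
  refine ⟨⟨fun h ε hε => ⟨1, fun V _ _ G hG _ hV => bd_of_l2 (h V G hG) ?_⟩, fun h V _ _ G hG => ?_⟩,
    fun V _ _ G hG hn => ?_⟩
  · have h1 : (0 : ℝ) < Fintype.card V := by exact_mod_cast hV
    positivity
  · by_contra hn
    obtain ⟨c, hc, h1⟩ := reduction hP1 (j := 0) hi hG hn
    obtain ⟨M, hM⟩ := h c hc
    obtain ⟨k, U, i1, i2, H, h2, _, h4, h5, h6⟩ := h1 M
    exact h6 (hM U H h2 h5 h4)
  · obtain ⟨c, hc, h1⟩ := reduction hP1 (j := 0) hi hG hn
    refine ⟨c, hc, fun M => ?_⟩
    obtain ⟨k, U, i1, i2, H, h2, h3, h4, h5, h6⟩ := h1 M
    obtain ⟨E, h7, h8⟩ := sub_of_not_bd h6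
    exact ⟨k, U, i1, i2, H, h2, h5, h4, h3.sub, E, h7, h8⟩

end Pool.Agent.Results.MP_984acc_gt.VirtualNerves
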